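import Pool.Agent.Work.MP_223b32_FY.Interface2

/-!
Block JOIN of the relative version of the project fixed finite field (MP_223b32_ag): tuples of
abelian varieties (helper50).
-/

namespace Pool.Agent.Work.FY

open Polynomial Finset TensorProduct Pool.Agent.Work.MP_223b32_ag
open Pool.Agent.Work.MP_223b32_ag_56 Pool.Agent.Work.FF Pool.Agent.Work.T3

namespace JOIN50

/-- a Weil root of an irreducible polynomial of degree at least three is not a square root -/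
theorem sq_ne {q : ℕ} {h : ℤ[X]} (hm : h.Monic) (hirr : Irreducible (h.map (Int.castRingHom ℚ)))
    (hd : 3 ≤ h.natDegree) {z : ℂ} (hz : IsWeilRoot q h z) : z ≠ 0 ∧ z ^ 2 ≠ q := by
  obtain ⟨hz0, hz⟩ := hz
  refine ⟨hz0, fun hzq => ?_⟩
  have h1 : z + q / z = 2 * z := by
    rw [← hzq]
    field_simp
    ring
  rw [h1] at hz
  have h3 : minpoly ℚ (2 * z) = h.map (Int.castRingHom ℚ) := by
    refine (minpoly.eq_of_irreducible_of_monic hirr ?_ (hm.map _)).symm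
    rw [aeval_def, eval₂_map]
    have : (algebraMap ℚ ℂ).comp (Int.castRingHom ℚ) = algebraMap ℤ ℂ := Subsingleton.elim _ _
    rw [this]
    exact hz
  have h4 : minpoly ℚ (2 * z) ∣ (X ^ 2 - C (4 * (q : ℚ)) : ℚ[X]) := by
    apply minpoly.dvd
    simp only [map_sub, map_pow, aeval_X, map_mul, map_natCast, map_ofNat]
    rw [mul_pow, hzq]
    norm_num
  have h5 := natDegree_le_of_dvd h4 (X_pow_sub_C_ne_zero (by norm_num) _)
  rw [h3, hm.natDegree_map, natDegree_X_pow_sub_C] at h5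
  omega

end JOIN50

theorem stmt_JOIN (hSEP : FF.Stmt_SEP) (hALT : Stmt_ALT) (hPAIR : Stmt_PAIR) (hCNT : Stmt_CNT2)
    (hFLX : Stmt_FLXP) : Stmt_JOIN := by
  intro q g k d₁ d₂ d₃ k' e₁ e₂ e₃ r h hq hadm hadm' hsepd hsepd' hh hpair
  have hg : 5 ≤ g := by
    obtain ⟨⟨h1, h3, h4, -, h5, h6, h7, h8, -⟩, -⟩ := hadm
    omega
  intro V _ _ _ Φ hΦ hΦ2
  refine hFLX q g (fun z => ∃ i, IsWeilRoot q (h i) z) hq ?_ ?_ V Φ hΦ hΦ2
  · rintro z ⟨i, hz⟩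
    exact JOIN50.sq_ne (hh i).1 (hh i).2.2.1 (by rw [(hh i).2.1]; omega) hz
  · refine hCNT q g r h hq hg ?_ ?_
    · intro i
      obtain ⟨hm, hdeg, hirr, ℓ, _, h2, hqℓ, hpat⟩ := hh i
      refine ⟨hm, hdeg, hirr, ?_, ?_⟩
      · intro L _ _ _ hs hsol
        exact hSEP L q ℓ g k d₁ d₂ d₃ (h i) h2 hqℓ hadm.1 hm hdeg hirr hs hsol hpat
      · exact hALT q ℓ g k d₁ d₂ d₃ (h i) h2 hqℓ hadm hm hdeg hirr hpat
    · intro L _ _ _ hs i j hij
      rcases lt_or_gt_of_ne hij with h1 | h1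
      · obtain ⟨ℓ, _, h2, hqℓ, hp1, hp2⟩ := hpair i j h1
        exact (hPAIR L q ℓ g k d₁ d₂ d₃ k' e₁ e₂ e₃ (h i) (h j) (by omega) h2 hqℓ hadm.1 hadm'.1
          (hh i).1 (hh i).2.1 (hh j).1 (hh j).2.1 (hs i) (hs j) hp1 hp2).1 hsepd
      · obtain ⟨ℓ, _, h2, hqℓ, hp1, hp2⟩ := hpair j i h1
        exact (hPAIR L q ℓ g k d₁ d₂ d₃ k' e₁ e₂ e₃ (h j) (h i) (by omega) h2 hqℓ hadm.1 hadm'.1
          (hh j).1 (hh j).2.1 (hh i).1 (hh i).2.1 (hs j) (hs i) hp1 hp2).2 hsepd'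

end Pool.Agent.Work.FY
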