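import Pool.Agent.Work.MP_223b32_FY.Interface2
import Pool.Agent.Work.MP_223b32_FY_helper64.OVER

/-!
Block OVER2 of the relative version of the project fixed finite field (MP_223b32_ag): flips over
finitely many fields (helper50, after the block OVER of helper64).
-/

namespace Pool.Agent.Work.FY

open Polynomial Finset TensorProduct Pool.Agent.Work.MP_223b32_ag
open Pool.Agent.Work.MP_223b32_ag_56 Pool.Agent.Work.FF Pool.Agent.Work.T3

namespace OVER2

variable {L : Type} [Field L] [NumberField L]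

/-- the automorphisms which fix all the elements of a set -/
def fixer (T : L → Prop) : Subgroup Gal(L/ℚ) where
  carrier := {σ | ∀ z : L, T z → σ z = z}
  one_mem' := fun z _ => rfl
  mul_mem' := by
    intro σ τ hσ hτ z hz
    show σ (τ z) = z
    rw [hτ z hz, hσ z hz]
  inv_mem' := by
    intro σ hσ z hz
    show σ.symm z = z
    rw [AlgEquiv.symm_apply_eq]
    exact (hσ z hz).symm

theorem mem_fixer (T : L → Prop) (σ : Gal(L/ℚ)) : σ ∈ fixer T ↔ ∀ z : L, T z → σ z = z := Iff.rfl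

theorem fixer_normal (T : L → Prop) (hT : ∀ (g : Gal(L/ℚ)) (z : L), T z → T (g z)) :
    (fixer T).Normal := by
  refine ⟨?_⟩
  intro σ hσ g z hz
  show g (σ (g⁻¹ z)) = z
  rw [(mem_fixer T σ).1 hσ (g⁻¹ z) (hT g⁻¹ z hz)]
  exact AlgEquiv.apply_symm_apply g z

theorem inv_of {ρ : Gal(L/ℚ)} {u v : L} (huv : ρ u = v) : ρ⁻¹ v = u := by
  rw [← huv]
  exact AlgEquiv.symm_apply_apply ρ u

/-- the elements above the roots -/
def Above (q : ℕ) (h' : ℤ[X]) (y : L) : Prop := y ≠ 0 ∧ aeval (y + q / y) h' = 0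

theorem above_stable (q : ℕ) (h' : ℤ[X]) (g : Gal(L/ℚ)) (y : L) (hy : Above q h' y) :
    Above q h' (g y) := by
  refine ⟨(_root_.map_ne_zero g).2 hy.1, ?_⟩
  have h1 := OVER64.gal_root g hy.2
  rw [map_add, map_div₀, map_natCast] at h1
  exact h1

/-- the commutator fixes the elements of a stable set if one of the factors does -/
theorem comm_fix (T : L → Prop) (hT : ∀ (g : Gal(L/ℚ)) (z : L), T z → T (g z)) {τ τ₀ : Gal(L/ℚ)}
    (h0 : ∀ u : L, T u → τ₀ u = u) {z : L} (hz : T z) : τ (τ₀⁻¹ (τ⁻¹ (τ₀ z))) = z := by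
  rw [h0 z hz, inv_of (h0 _ (hT τ⁻¹ z hz))]
  exact AlgEquiv.apply_symm_apply τ z

end OVER2

open OVER2 in
theorem stmt_OVER2 (hGRP : Stmt_GRP) (hGRP2 : Stmt_GRP2) : Stmt_OVER2 := by
  intro L _ _ _ q h hq hm hirr hdeg hs hsol hsep h3 Ps hPs Hs hHs x hx0 hx
  let _ : DecidableEq L := Classical.decEq L
  have hX := OVER64.card_rts (L := L) hm hirr hs
  have hX5 : 5 ≤ Fintype.card {r // r ∈ OVER64.rts L h} := by
    rw [Fintype.card_coe, hX]
    exact hdeg
  -- the fixing subgroups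
  obtain ⟨N, hN⟩ : ∃ N : ℤ[X] → Subgroup Gal(L/ℚ), N = fun P => fixer (fun z => aeval z P = 0) :=
    ⟨_, rfl⟩
  obtain ⟨N', hN'⟩ : ∃ N' : ℤ[X] → Subgroup Gal(L/ℚ), N' = fun h' => fixer (Above q h') :=
    ⟨_, rfl⟩
  have hNn : ∀ P, (N P).Normal := by
    intro P
    rw [hN]
    exact fixer_normal _ fun g z hz => OVER64.gal_root g hz
  have hNn' : ∀ h', (N' h').Normal := by
    intro h'
    rw [hN']
    exact fixer_normal _ (above_stable q h')
  have hN1 : ∀ P ∈ Ps, ∃ σ ∈ N P,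
      OVER64.permHom (OVER64.rts L h) (OVER64.rts_stable hm) σ ≠ 1 := by
    intro P hP
    obtain ⟨hPm, hPd, _, a, ha⟩ := hPs P hP
    obtain ⟨τ, hτ, hne⟩ := hGRP Gal(L/ℚ) {r // r ∈ OVER64.rts L h}
      (OVER64.permHom (OVER64.rts L h) (OVER64.rts_stable hm)) hX5 (OVER64.alt_le hm hs h3)
      ℤ[X] {P} N (by
        intro P' hP'
        rw [Finset.mem_singleton] at hP'
        subst hP'
        refine ⟨hNn _, ?_⟩
        obtain ⟨m, ψ, h1, h2⟩ := OVER64.small_action (L := L) (Q := q ^ a) (pow_ne_zero _ hq) hPm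
          (fun z hz => by rw [ha z hz]; push_cast; rfl) hPd
        refine ⟨m, ψ, by rw [Fintype.card_coe, hX]; exact h1, ?_⟩
        intro σ hσ
        rw [hN, mem_fixer]
        intro z hz
        rw [pow_two]
        exact h2 σ hσ z hz) ⟨x + q / x, (OVER64.mem_rts hm _).2 hx⟩
    refine ⟨τ, hτ P (Finset.mem_singleton_self P), ?_⟩
    intro h1
    apply hne
    rw [h1]
    rfl
  have hN2 : ∀ h' ∈ Hs, ∃ σ ∈ N' h',
      OVER64.permHom (OVER64.rts L h) (OVER64.rts_stable hm) σ ≠ 1 := by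
    intro h' hh'
    obtain ⟨σ, hσ, z, hz, hz2⟩ := hHs h' hh'
    refine ⟨σ, ?_, ?_⟩
    · rw [hN', mem_fixer]
      exact fun y hy => hσ y hy.1 hy.2
    · intro h1
      apply hz2
      have h4 := OVER64.permHom_apply (OVER64.rts L h) (OVER64.rts_stable hm) σ
        ⟨z, (OVER64.mem_rts hm _).2 hz⟩
      rw [h1] at h4
      exact h4.symm
  obtain ⟨τ₀, hτ₀, hne⟩ := hGRP2 Gal(L/ℚ) {r // r ∈ OVER64.rts L h}
    (OVER64.permHom (OVER64.rts L h) (OVER64.rts_stable hm)) hX5 (OVER64.alt_le hm hs h3)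
    (ℤ[X] ⊕ ℤ[X]) (Ps.disjSum Hs) (Sum.elim N N') (by
      intro i hi
      rcases i with P | h'
      · have hP : P ∈ Ps := Finset.inl_mem_disjSum.1 hi
        exact ⟨hNn P, hN1 P hP⟩
      · have hh' : h' ∈ Hs := Finset.inr_mem_disjSum.1 hi
        exact ⟨hNn' h', hN2 h' hh'⟩) ⟨x + q / x, (OVER64.mem_rts hm _).2 hx⟩
  have hPs0 : ∀ P ∈ Ps, ∀ u : L, aeval u P = 0 → τ₀ u = u := by
    intro P hP
    have h1 := hτ₀ (Sum.inl P) (Finset.inl_mem_disjSum.2 hP)
    have h2 : τ₀ ∈ N P := h1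
    rw [hN] at h2
    exact h2
  have hHs0 : ∀ h' ∈ Hs, ∀ u : L, Above q h' u → τ₀ u = u := by
    intro h' hh'
    have h1 := hτ₀ (Sum.inr h') (Finset.inr_mem_disjSum.2 hh')
    have h2 : τ₀ ∈ N' h' := h1
    rw [hN'] at h2
    exact h2
  have hne' : τ₀ (x + q / x) ≠ x + q / x := by
    intro h0
    exact hne (Subtype.ext h0)
  have hr2 : aeval (τ₀ (x + q / x)) h = 0 := OVER64.gal_root τ₀ hx
  obtain ⟨y, hy0, hy⟩ := hsol _ hr2
  obtain ⟨τ, hτ, hc⟩ := hsep x y hx0 hy0 hx (by rw [hy]; exact hr2)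
    (by rw [hy]; exact fun h0 => hne' h0.symm)
  have hτ0x : τ₀ x = y ∨ τ₀ x = q / y := by
    refine GALAux.two_sol y (τ₀ x) hy0 ((_root_.map_ne_zero τ₀).2 hx0) ?_
    rw [hy, map_add, map_div₀, map_natCast]
  have hq0 : (q : L) ≠ 0 := by exact_mod_cast hq
  refine ⟨τ * τ₀⁻¹ * τ⁻¹ * τ₀, ?_, ?_, ?_, ?_, ?_⟩
  · intro P hP z hz
    exact comm_fix (fun z => aeval z P = 0) (fun g z hz => OVER64.gal_root g hz) (hPs0 P hP) hz
  · intro h' hh' z hz hz2
    exact comm_fix (Above q h') (above_stable q h') (hHs0 h' hh') ⟨hz, hz2⟩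
  · intro z hz
    show τ (τ₀⁻¹ (τ⁻¹ (τ₀ z))) = z
    rw [inv_of (hτ _ (OVER64.gal_root τ₀ hz)), inv_of (ρ := τ₀) rfl, hτ z hz]
  · show τ (τ₀⁻¹ (τ⁻¹ (τ₀ x))) = q / x
    rcases hc with ⟨h1, h2, h4⟩ | ⟨h1, h2, h4⟩
    · have h5 : τ (τ₀ x) = τ₀ x := by
        rcases hτ0x with h6 | h6
        · rw [h6, h4]
        · rw [h6, map_div₀, map_natCast, h4]
      rw [inv_of h5, inv_of (ρ := τ₀) rfl, h1]
    · have h5 : τ (q / τ₀ x) = τ₀ x := by
        rcases hτ0x with h6 | h6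
        · rw [h6, map_div₀, map_natCast, h2]
          field_simp
        · rw [h6, map_div₀, map_natCast, map_div₀, map_natCast, h2]
          field_simp
      have h6 : τ₀ (q / x) = q / τ₀ x := by rw [map_div₀, map_natCast]
      rw [inv_of h5, inv_of h6, map_div₀, map_natCast, h1]
  · rcases hc with ⟨h1, h2, h4⟩ | ⟨h1, h2, h4⟩
    · exact h2
    · intro h5
      apply h4
      have h6 : τ₀ x = q / τ₀ x := by
        conv_lhs => rw [h5]
        rw [map_div₀, map_natCast]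
      rcases hτ0x with h7 | h7
      · rw [h7] at h6
        exact h6
      · rw [h7] at h6
        have h8 : (q : L) / (q / y) = y := by field_simp
        rw [h8] at h6
        exact h6.symm

end Pool.Agent.Work.FY
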